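import Pool.Agent.Helper4.EC_E.MSBase

set_option autoImplicit false

namespace EC237.ZE.PkMS2

open EC237.ZE.MSBase

theorem thm : EC237.ZE.G_MS2 := by
  intro n
  have hM : (n:ℝ) + 1 ≠ 0 := by positivity
  refine ⟨?_, ?_⟩
  · rw [Sab_eq, T21, C21]
    field_simp
    ring
  · rw [Sab_eq, T12, C12]
    field_simp
    ring

end EC237.ZE.PkMS2
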