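import Pool.Agent.Helper4.EC_E.MSBase

set_option autoImplicit false

namespace EC237.ZE.PkMS3

open EC237.ZE.MSBase

theorem thm : EC237.ZE.G_MS3 := by
  intro n
  have hM : (n:ℝ) + 1 ≠ 0 := by positivity
  rw [Sab_eq, T22, C22]
  field_simp
  ring

end EC237.ZE.PkMS3
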