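import Pool.Agent.Helper7.EC_E.GoalsM

/-!
# MP_ecc237_nt, PART E, packets MS2, MS3: the finite sums
-/

set_option autoImplicit false

open Finset

namespace EC237.ZE.MSBase

/-- The sum over `P+Q = M`, `M = m+1`. -/
noncomputable def Cab (a b m : ℕ) : ℝ :=
  ∑ p ∈ range m, 1 / (((p:ℝ) + 1) ^ a * ((((m - 1 - p : ℕ)):ℝ) + 1) ^ b)

theorem Hs_succ (a n : ℕ) : Hs a (n+1) = Hs a n + 1 / ((n:ℝ) + 1) ^ a := by
  unfold Hs; rw [sum_range_succ]

theorem Zn_succ (n : ℕ) : Zn (n+1) = Zn n + Hs 1 n / ((n:ℝ) + 1) ^ 2 := by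
  unfold Zn; rw [sum_range_succ]

theorem Yn_succ (n : ℕ) : Yn (n+1) = Yn n + Hs 1 n / ((n:ℝ) + 1) ^ 3 := by
  unfold Yn; rw [sum_range_succ]

/-- the diagonal `p + q + 1 = m` in the square of side `n+1`, `m ≤ n` -/
theorem diag (F : ℕ → ℕ → ℝ) (n m : ℕ) (hm : m ≤ n) :
    ∑ p ∈ range (n+1), ∑ q ∈ range (n+1), (if p + q + 1 = m then F p q else 0) =
      ∑ p ∈ range m, F p (m - 1 - p) := by
  have h1 : ∀ p ∈ range (n+1), ∑ q ∈ range (n+1), (if p + q + 1 = m then F p q else 0) =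
      if p < m then F p (m - 1 - p) else 0 := by
    intro p hp
    by_cases hpm : p < m
    · rw [if_pos hpm]
      rw [sum_eq_single (m - 1 - p)]
      · rw [if_pos (by omega)]
      · intro q _ hq
        rw [if_neg (by omega)]
      · intro hq
        exact absurd (mem_range.mpr (by omega)) hq
    · rw [if_neg hpm]
      apply sum_eq_zero
      intro q _
      rw [if_neg (by omega)]
  rw [sum_congr rfl h1, ← sum_filter]
  apply sum_congr _ (fun _ _ => rfl)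
  ext p
  simp only [mem_filter, mem_range]
  omega

theorem indic (k n : ℕ) : (if k < n then (1:ℝ) else 0) = ∑ m ∈ range n, if k = m then (1:ℝ) else 0 := by
  rw [sum_ite_eq]
  simp only [mem_range]

theorem edge (f : ℕ → ℝ) (n : ℕ) :
    ∑ p ∈ range (n+1), (if p = n then 1 / 2 else 1) * f p = ∑ p ∈ range n, f p + f n / 2 := by
  rw [sum_range_succ]
  congr 1
  · apply sum_congr rfl
    intro p hp
    rw [if_neg (by have := mem_range.mp hp; omega)]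
    ring
  · rw [if_pos rfl]; ring

theorem wt_eq (n p q : ℕ) : wt n p q =
    2 * ((if p = n then 1 / 2 else 1) * (if q = n then 1 / 2 else 1)) -
      2 * (if p + q + 1 < n then 1 else 0) - (if p + q + 1 = n then 1 else 0) := by
  unfold wt
  by_cases h1 : p + q + 1 < n
  · rw [if_pos h1, if_pos h1, if_neg (by omega : ¬ p = n), if_neg (by omega : ¬ q = n),
      if_neg (by omega : ¬ p + q + 1 = n)]
    norm_num
  · by_cases h2 : p + q + 1 = n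
    · rw [if_neg h1, if_neg h1, if_pos h2, if_pos h2, if_neg (by omega : ¬ p = n),
        if_neg (by omega : ¬ q = n)]
      norm_num
    · rw [if_neg h1, if_neg h1, if_neg h2, if_neg h2]
      ring

theorem Sab_eq (a b n : ℕ) : Sab a b n =
    2 * ((Hs a n + 1 / ((n:ℝ) + 1) ^ a / 2) * (Hs b n + 1 / ((n:ℝ) + 1) ^ b / 2)) -
      2 * ∑ m ∈ range n, Cab a b m - Cab a b n := by
  set f : ℕ → ℝ := fun p => 1 / ((p:ℝ) + 1) ^ a with hf
  set g : ℕ → ℝ := fun p => 1 / ((p:ℝ) + 1) ^ b with hg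
  have e1 : Hs a n + 1 / ((n:ℝ) + 1) ^ a / 2 =
      ∑ p ∈ range (n+1), (if p = n then 1 / 2 else 1) * f p := by
    rw [edge]; rfl
  have e2 : Hs b n + 1 / ((n:ℝ) + 1) ^ b / 2 =
      ∑ p ∈ range (n+1), (if p = n then 1 / 2 else 1) * g p := by
    rw [edge]; rfl
  have e3 : ∀ m, m ≤ n → Cab a b m = ∑ p ∈ range (n+1), ∑ q ∈ range (n+1),
      (if p + q + 1 = m then 1 else 0) * (f p * g q) := by
    intro m hm
    have := diag (fun p q => f p * g q) n m hm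
    unfold Cab
    rw [show (∑ p ∈ range m, 1 / (((p:ℝ) + 1) ^ a * ((((m - 1 - p : ℕ)):ℝ) + 1) ^ b)) =
      ∑ p ∈ range m, f p * g (m - 1 - p) from ?_]
    · rw [← this]
      apply sum_congr rfl; intro p _
      apply sum_congr rfl; intro q _
      split_ifs <;> ring
    · apply sum_congr rfl; intro p _
      simp only [hf, hg]
      rw [one_div_mul_one_div]
  have e4 : ∑ m ∈ range n, Cab a b m = ∑ p ∈ range (n+1), ∑ q ∈ range (n+1),
      (if p + q + 1 < n then 1 else 0) * (f p * g q) := by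
    rw [sum_congr rfl (fun m hm => e3 m (le_of_lt (mem_range.mp hm)))]
    rw [sum_comm]
    apply sum_congr rfl; intro p _
    rw [sum_comm]
    apply sum_congr rfl; intro q _
    rw [indic, sum_mul]
  rw [e1, e2, e4, e3 n le_rfl, sum_mul_sum]
  unfold Sab
  rw [mul_sum, mul_sum, ← sum_sub_distrib, ← sum_sub_distrib]
  apply sum_congr rfl; intro p _
  rw [mul_sum, mul_sum, ← sum_sub_distrib, ← sum_sub_distrib]
  apply sum_congr rfl; intro q _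
  rw [wt_eq]
  have : 1 / (((p:ℝ) + 1) ^ a * ((q:ℝ) + 1) ^ b) = f p * g q := by
    simp only [hf, hg]
    rw [one_div_mul_one_div]
  rw [div_eq_mul_one_div, this]
  ring

theorem refl_sum (F : ℕ → ℝ) (m : ℕ) : ∑ p ∈ range m, F (m - 1 - p) = ∑ p ∈ range m, F p :=
  sum_range_reflect F m

theorem refl_H (a m : ℕ) : ∑ p ∈ range m, 1 / ((((m - 1 - p : ℕ)):ℝ) + 1) ^ a = Hs a m := by
  have := refl_sum (fun q => 1 / ((q:ℝ) + 1) ^ a) m
  rw [this]; rfl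

theorem cast_eq {m p : ℕ} (hp : p ∈ range m) :
    (((m - 1 - p : ℕ)):ℝ) = (m:ℝ) - 1 - p := by
  have h := mem_range.mp hp
  rw [Nat.cast_sub (by omega), Nat.cast_sub (by omega)]
  simp

theorem C11 (m : ℕ) : Cab 1 1 m = 2 * Hs 1 m / ((m:ℝ) + 1) := by
  unfold Cab
  have h : ∀ p ∈ range m, 1 / (((p:ℝ) + 1) ^ 1 * ((((m - 1 - p : ℕ)):ℝ) + 1) ^ 1) =
      (1 / ((p:ℝ) + 1) ^ 1 + 1 / ((((m - 1 - p : ℕ)):ℝ) + 1) ^ 1) * (1 / ((m:ℝ) + 1)) := by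
    intro p hp
    have hM : (m:ℝ) + 1 ≠ 0 := by positivity
    have hP : (p:ℝ) + 1 ≠ 0 := by positivity
    have hQ : (((m - 1 - p : ℕ)):ℝ) + 1 ≠ 0 := by positivity
    have hc := cast_eq hp
    have hsum : (m:ℝ) + 1 = ((p:ℝ) + 1) + ((((m - 1 - p : ℕ)):ℝ) + 1) := by rw [hc]; ring
    generalize (((m - 1 - p : ℕ)):ℝ) + 1 = Q at *
    generalize (p:ℝ) + 1 = P at *
    rw [hsum] at hM ⊢
    field_simp
    try ring
  rw [sum_congr rfl h, ← sum_mul, sum_add_distrib, refl_H]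
  change (Hs 1 m + Hs 1 m) * _ = _
  ring

theorem C21 (m : ℕ) : Cab 2 1 m = Hs 2 m / ((m:ℝ) + 1) + 2 * Hs 1 m / ((m:ℝ) + 1) ^ 2 := by
  unfold Cab
  have h : ∀ p ∈ range m, 1 / (((p:ℝ) + 1) ^ 2 * ((((m - 1 - p : ℕ)):ℝ) + 1) ^ 1) =
      1 / ((p:ℝ) + 1) ^ 2 * (1 / ((m:ℝ) + 1)) +
      (1 / ((p:ℝ) + 1) ^ 1 + 1 / ((((m - 1 - p : ℕ)):ℝ) + 1) ^ 1) * (1 / ((m:ℝ) + 1) ^ 2) := by
    intro p hp
    have hM : (m:ℝ) + 1 ≠ 0 := by positivity
    have hP : (p:ℝ) + 1 ≠ 0 := by positivity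
    have hQ : (((m - 1 - p : ℕ)):ℝ) + 1 ≠ 0 := by positivity
    have hc := cast_eq hp
    have hsum : (m:ℝ) + 1 = ((p:ℝ) + 1) + ((((m - 1 - p : ℕ)):ℝ) + 1) := by rw [hc]; ring
    generalize (((m - 1 - p : ℕ)):ℝ) + 1 = Q at *
    generalize (p:ℝ) + 1 = P at *
    rw [hsum] at hM ⊢
    field_simp
    try ring
  rw [sum_congr rfl h, sum_add_distrib, ← sum_mul, ← sum_mul, sum_add_distrib, refl_H]
  change Hs 2 m * _ + (Hs 1 m + Hs 1 m) * _ = _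
  ring

theorem C12 (m : ℕ) : Cab 1 2 m = Hs 2 m / ((m:ℝ) + 1) + 2 * Hs 1 m / ((m:ℝ) + 1) ^ 2 := by
  unfold Cab
  have h : ∀ p ∈ range m, 1 / (((p:ℝ) + 1) ^ 1 * ((((m - 1 - p : ℕ)):ℝ) + 1) ^ 2) =
      1 / ((((m - 1 - p : ℕ)):ℝ) + 1) ^ 2 * (1 / ((m:ℝ) + 1)) +
      (1 / ((p:ℝ) + 1) ^ 1 + 1 / ((((m - 1 - p : ℕ)):ℝ) + 1) ^ 1) * (1 / ((m:ℝ) + 1) ^ 2) := by
    intro p hp
    have hM : (m:ℝ) + 1 ≠ 0 := by positivity
    have hP : (p:ℝ) + 1 ≠ 0 := by positivity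
    have hQ : (((m - 1 - p : ℕ)):ℝ) + 1 ≠ 0 := by positivity
    have hc := cast_eq hp
    have hsum : (m:ℝ) + 1 = ((p:ℝ) + 1) + ((((m - 1 - p : ℕ)):ℝ) + 1) := by rw [hc]; ring
    generalize (((m - 1 - p : ℕ)):ℝ) + 1 = Q at *
    generalize (p:ℝ) + 1 = P at *
    rw [hsum] at hM ⊢
    field_simp
    try ring
  rw [sum_congr rfl h, sum_add_distrib, ← sum_mul, ← sum_mul, sum_add_distrib, refl_H, refl_H]
  change Hs 2 m * _ + (Hs 1 m + Hs 1 m) * _ = _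
  ring

theorem C22 (m : ℕ) : Cab 2 2 m = 2 * Hs 2 m / ((m:ℝ) + 1) ^ 2 + 4 * Hs 1 m / ((m:ℝ) + 1) ^ 3 := by
  unfold Cab
  have h : ∀ p ∈ range m, 1 / (((p:ℝ) + 1) ^ 2 * ((((m - 1 - p : ℕ)):ℝ) + 1) ^ 2) =
      (1 / ((p:ℝ) + 1) ^ 2 + 1 / ((((m - 1 - p : ℕ)):ℝ) + 1) ^ 2) * (1 / ((m:ℝ) + 1) ^ 2) +
      (1 / ((p:ℝ) + 1) ^ 1 + 1 / ((((m - 1 - p : ℕ)):ℝ) + 1) ^ 1) * (2 / ((m:ℝ) + 1) ^ 3) := by
    intro p hp
    have hM : (m:ℝ) + 1 ≠ 0 := by positivity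
    have hP : (p:ℝ) + 1 ≠ 0 := by positivity
    have hQ : (((m - 1 - p : ℕ)):ℝ) + 1 ≠ 0 := by positivity
    have hc := cast_eq hp
    have hsum : (m:ℝ) + 1 = ((p:ℝ) + 1) + ((((m - 1 - p : ℕ)):ℝ) + 1) := by rw [hc]; ring
    generalize (((m - 1 - p : ℕ)):ℝ) + 1 = Q at *
    generalize (p:ℝ) + 1 = P at *
    rw [hsum] at hM ⊢
    field_simp
    try ring
  rw [sum_congr rfl h, sum_add_distrib, ← sum_mul, ← sum_mul, sum_add_distrib, sum_add_distrib,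
    refl_H, refl_H]
  change (Hs 2 m + Hs 2 m) * _ + (Hs 1 m + Hs 1 m) * _ = _
  ring

theorem T11 (n : ℕ) : ∑ m ∈ range n, Cab 1 1 m = Hs 1 n ^ 2 - Hs 2 n := by
  induction n with
  | zero => simp [Hs]
  | succ n ih =>
    rw [sum_range_succ, ih, C11, Hs_succ, Hs_succ]
    have hM : (n:ℝ) + 1 ≠ 0 := by positivity
    field_simp
    ring

theorem T21 (n : ℕ) : ∑ m ∈ range n, Cab 2 1 m = Hs 2 n * Hs 1 n - Hs 3 n + Zn n := by
  induction n with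
  | zero => simp [Hs, Zn]
  | succ n ih =>
    rw [sum_range_succ, ih, C21, Hs_succ, Hs_succ, Hs_succ, Zn_succ]
    have hM : (n:ℝ) + 1 ≠ 0 := by positivity
    field_simp
    ring

theorem T12 (n : ℕ) : ∑ m ∈ range n, Cab 1 2 m = Hs 2 n * Hs 1 n - Hs 3 n + Zn n := by
  rw [← T21]
  exact sum_congr rfl (fun m _ => by rw [C12, C21])

theorem T22 (n : ℕ) : ∑ m ∈ range n, Cab 2 2 m = Hs 2 n ^ 2 - Hs 4 n + 4 * Yn n := by
  induction n with
  | zero => simp [Hs, Yn]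
  | succ n ih =>
    rw [sum_range_succ, ih, C22, Hs_succ, Hs_succ, Yn_succ]
    have hM : (n:ℝ) + 1 ≠ 0 := by positivity
    field_simp
    ring

end EC237.ZE.MSBase
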